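import Pool.Agent.Helper265.WI.Main

open MeasureTheory

namespace Pool.Agent.Results.MP_2c3223_an.BothQuestions

open Pool.Agent.Helper265.WI

/-- One symmetric measure `μ` (given by its radial part `ν`) and exponent `p = 2` for which both
questions have a negative answer, with zero-free functions: a weakly invertible `g` whose square
lies in `E²(μ)` but is not weakly invertible (Q1), and `f` with `f, 1/f ∈ E²(μ)`, `f * (1/f) = 1`
weakly invertible but `f` not weakly invertible (Q2). -/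
theorem result :
    ∃ ν : Measure ℝ, IsRadialPart ν ∧
      (∃ g h : ℂ → ℂ, (∀ z, g z ≠ 0) ∧ (∀ z, h z ≠ 0) ∧
        WeaklyInvertible 2 ν g ∧ WeaklyInvertible 2 ν h ∧
        MemE 2 ν (fun z => g z * h z) ∧ ¬ WeaklyInvertible 2 ν (fun z => g z * h z)) ∧
      (∃ g h : ℂ → ℂ, (∀ z, g z ≠ 0) ∧ (∀ z, h z ≠ 0) ∧
        MemE 2 ν g ∧ MemE 2 ν h ∧
        WeaklyInvertible 2 ν (fun z => g z * h z) ∧ ¬ WeaklyInvertible 2 ν g) := by
  obtain ⟨ν, g, hν, hg0, hg, hm, hmi, hn⟩ := Main.main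
  refine ⟨ν, hν, ⟨g, g, hg0, hg0, hg, hg, hm, hn⟩,
    ⟨fun z => g z * g z, fun z => (g z * g z)⁻¹, fun z => mul_ne_zero (hg0 z) (hg0 z),
      fun z => inv_ne_zero (mul_ne_zero (hg0 z) (hg0 z)), hm, hmi, ?_, hn⟩⟩
  have : (fun z => g z * g z * (g z * g z)⁻¹) = fun _ : ℂ => (1:ℂ) := by
    funext z
    exact mul_inv_cancel₀ (mul_ne_zero (hg0 z) (hg0 z))
  rw [this]
  exact Half.wi_one ν hν

end Pool.Agent.Results.MP_2c3223_an.BothQuestions
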