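import Pool.Agent.Helper873.EpDef
import Pool.Agent.Helper873.EpF

open MeasureTheory

namespace Pool.Agent.Results.MP_2c3223_an.ProductNotWI

open Pool.Agent.Helper873.Ep

/-- For every real `p ≥ 1` there are a symmetric measure `μ` and a zero-free function
`g ∈ E^p(μ)`, weakly invertible in `E^p(μ)`, such that `g * g` belongs to `E^p(μ)` but is not
weakly invertible in `E^p(μ)`. -/
theorem result (p : ℝ) (hp : 1 ≤ p) :
    ∃ μ : Measure ℂ, IsSymmetric μ ∧ ∃ g : ℂ → ℂ, (∀ z, g z ≠ 0) ∧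
      WeaklyInvertible μ p g ∧ MemEp μ p (fun z => g z * g z) ∧
      ¬ WeaklyInvertible μ p (fun z => g z * g z) := by
  have hp0 : 0 < p := by linarith
  obtain ⟨μ, F, hμ, hF, hmem, hwi, hnot⟩ := main p hp
  have hsq : (fun z => Complex.exp (((1 / 2 : ℝ) : ℂ) * F z) *
      Complex.exp (((1 / 2 : ℝ) : ℂ) * F z)) = fun z => Complex.exp (F z) := by
    funext z
    rw [← Complex.exp_add]
    congr 1
    push_cast
    ring
  have h1 : (fun z => Complex.exp (((1 : ℝ) : ℂ) * F z)) = fun z => Complex.exp (F z) := by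
    funext z
    rw [Complex.ofReal_one, one_mul]
  refine ⟨μ, hμ, fun z => Complex.exp (((1 / 2 : ℝ) : ℂ) * F z), fun z => Complex.exp_ne_zero _,
    hwi (1 / 2) p (by norm_num) hp0 (by linarith), ?_, ?_⟩
  · rw [hsq, ← h1]
    exact hmem 1 p one_pos hp0 (by linarith)
  · rw [hsq]
    exact hnot

end Pool.Agent.Results.MP_2c3223_an.ProductNotWI
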